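import Pool.Agent.H41.PRK.S5
import Pool.Agent.H37.T1.CTRK
import Pool.Agent.H3.T1.PRDK

/-! Module BIDY of project PRK (helper19): the part of `(d)` at `T'`. -/

set_option autoImplicit false

namespace Pool.PRK

open Polynomial Matrix Pool.HYP Pool.TOW Pool.AVS Pool.T1 IsDedekindDomain

theorem bidy : BIDYStmt := by
  intro R _ _ K _ _ _ O π _ g D y d E _ hT
  classical
  obtain ⟨⟨hd0, hS, hTS, -⟩, -, hcard⟩ := hT
  set S := odd D.T y with hSd
  have hST : S ⊆ D.T := by
    rw [hSd, odd]
    exact Finset.filter_subset _ _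
  set Q : Ideal R := ∏ P ∈ S, P.asIdeal with hQ
  have hle : Ideal.span {d} ≤ Q := by
    rw [Ideal.span_singleton_le_iff_mem, hQ]
    exact Pool.T137.mem_prod S d fun P hP => (hS P hP).1
  obtain ⟨b, hb⟩ := Ideal.dvd_iff_le.2 hle
  have hb' : Ideal.span {d} = b * Q := by rw [hb, mul_comm]
  have hb0 : b ≠ ⊥ := by
    rintro rfl
    rw [Ideal.mul_bot, Ideal.span_singleton_eq_bot] at hb
    exact hd0 hb
  have hdb : d ∈ b := by
    have h1 : Ideal.span {d} ≤ b := by
      rw [hb']
      exact Ideal.mul_le_left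
    exact h1 (Ideal.mem_span_singleton_self d)
  have hcop : ∀ P ∈ D.T, IsCoprime b P.asIdeal := by
    intro P hP
    rw [isCoprime_comm, Ideal.isCoprime_iff_sup_eq]
    have hmax := P.isMaximal
    by_contra hne
    have h1 : P.asIdeal ⊔ b = P.asIdeal := (hmax.eq_of_le hne le_sup_left).symm
    have h2 : b ≤ P.asIdeal := by
      rw [← h1]
      exact le_sup_right
    by_cases hPS : P ∈ S
    · have h3 : Ideal.span {d} ≤ P.asIdeal ^ 2 := by
        rw [hb', pow_two]
        refine Ideal.mul_mono h2 ?_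
        rw [hQ]
        exact Ideal.le_of_dvd (Finset.dvd_prod_of_mem _ hPS)
      exact (hS P hPS).2 (h3 (Ideal.mem_span_singleton_self d))
    · exact hTS P hP hPS (h2 hdb)
  have hcopQ : IsCoprime b Q := IsCoprime.prod_right fun P hP => hcop P (hST hP)
  refine ⟨b, hb0, hb', hcop, ?_, ?_⟩
  · have h3 := cardQuot_mul_of_coprime hcopQ
    rw [Submodule.cardQuot_apply, Submodule.cardQuot_apply, Submodule.cardQuot_apply,
      ← hb', hQ, Pool.T1.prdk R S, hcard] at h3
    exact h3.symm
  · intro s hs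
    by_contra hsb
    let J : Ideal R :=
      { carrier := {m | m * s ∈ b}
        add_mem' := fun {x z} hx hz => by
          simp only [Set.mem_ofPred_eq] at hx hz ⊢
          rw [add_mul]
          exact b.add_mem hx hz
        zero_mem' := by simp
        smul_mem' := fun c x hx => by
          simp only [Set.mem_ofPred_eq, smul_eq_mul] at hx ⊢
          rw [mul_assoc]
          exact b.mul_mem_left c hx }
    have hJ : ∀ m, m ∈ J ↔ m * s ∈ b := fun m => Iff.rfl
    have hJ1 : J ≠ ⊤ := by
      intro h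
      have h1 : (1 : R) ∈ J := by rw [h]; trivial
      rw [hJ, one_mul] at h1
      exact hsb h1
    obtain ⟨M, hM, hJM⟩ := Ideal.exists_le_maximal J hJ1
    have hbJ : b ≤ J := fun x hx => (hJ x).2 (b.mul_mem_right s hx)
    have hM0 : M ≠ ⊥ := by
      rintro rfl
      exact hb0 (le_bot_iff.1 (hbJ.trans hJM))
    let P : HeightOneSpectrum R := ⟨M, hM.isPrime, hM0⟩
    by_cases hPS : P ∈ S
    · have h1 := hcop P (hST hPS)
      rw [Ideal.isCoprime_iff_sup_eq, sup_eq_right.2 (hbJ.trans hJM : b ≤ P.asIdeal)] at h1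
      exact hM.ne_top h1
    · obtain ⟨m, hm, a, ha⟩ := hs P hPS
      have hdK : algebraMap R K d ≠ 0 := by
        rw [Ne, FaithfulSMul.algebraMap_eq_zero_iff R K]
        exact hd0
      have h1 : m * s = a * d := by
        apply FaithfulSMul.algebraMap_injective R K
        rw [map_mul, map_mul, ← ha]
        field_simp
      exact hm (hJM ((hJ m).2 (h1 ▸ b.mul_mem_left a hdb)))

end Pool.PRK
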