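import Pool.Agent.H41.PRK.S5

/-! Module CCDY of project PRK (helper19): from a smaller ideal to a larger one. -/

set_option autoImplicit false

namespace Pool.PRK

theorem ccdy : CCDYStmt := by
  intro R _ A I J M hA hIJ hfin h r
  classical
  set φ : R ⧸ I →+* R ⧸ J := Ideal.Quotient.factor hIJ with hφd
  have hφ : Function.Surjective φ := Ideal.Quotient.factor_surjective hIJ
  haveI : Finite (R ⧸ J) := Finite.of_surjective φ hφ
  letI := Fintype.ofFinite (R ⧸ I)
  letI := Fintype.ofFinite (R ⧸ J)
  have hφm : ∀ a : R, φ (Ideal.Quotient.mk I a) = Ideal.Quotient.mk J a := fun a => by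
    rw [hφd, Ideal.Quotient.factor_mk]
  let S : Finset (R ⧸ I) := Finset.univ.filter (fun c => φ c = Ideal.Quotient.mk J r)
  have hS : S.card * Nat.card (R ⧸ J) = Nat.card (R ⧸ I) := by
    have e : ∀ y : R ⧸ J, (Finset.univ.filter (fun c : R ⧸ I => φ c = y)).card = S.card := by
      intro y
      obtain ⟨c0, hc0⟩ := hφ (y - Ideal.Quotient.mk J r)
      refine Finset.card_bij' (fun c _ => c - c0) (fun c _ => c + c0) ?_ ?_ ?_ ?_
      · intro c hc
        simp only [Finset.mem_filter, Finset.mem_univ, true_and, S] at hc ⊢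
        rw [map_sub, hc, hc0]
        ring
      · intro c hc
        simp only [Finset.mem_filter, Finset.mem_univ, true_and, S] at hc ⊢
        rw [map_add, hc, hc0]
        ring
      · intro c _
        ring
      · intro c _
        ring
    have h2 := Finset.card_eq_sum_card_fiberwise (f := φ) (s := Finset.univ) (t := Finset.univ)
      (fun _ _ => Finset.mem_coe.2 (Finset.mem_univ _))
    rw [Finset.sum_congr rfl (fun y _ => e y), Finset.sum_const, smul_eq_mul] at h2
    rw [Nat.card_eq_fintype_card, Nat.card_eq_fintype_card, mul_comm]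
    exact h2.symm
  have hN : {a ∈ A | a - r ∈ J}.ncard * Nat.card (R ⧸ I) ≤ S.card * M := by
    set F := hA.toFinset with hF
    have e1 : {a ∈ A | a - r ∈ J} = ↑(F.filter (fun a => a - r ∈ J)) := by
      ext a
      simp [hF]
    rw [e1, Set.ncard_coe_finset]
    have h2 : ((F.filter (fun a => a - r ∈ J)).card) =
        ∑ c ∈ S, ((F.filter (fun a => a - r ∈ J)).filter
          (fun a => Ideal.Quotient.mk I a = c)).card := by
      refine Finset.card_eq_sum_card_fiberwise ?_
      intro a ha
      simp only [Finset.coe_filter, Set.mem_ofPred_eq, Finset.mem_univ, true_and, S] at ha ⊢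
      rw [hφm, Ideal.Quotient.eq]
      exact ha.2
    rw [h2, Finset.sum_mul, ← smul_eq_mul, ← Finset.sum_const]
    refine Finset.sum_le_sum fun c _ => ?_
    obtain ⟨r', rfl⟩ := Ideal.Quotient.mk_surjective c
    refine le_trans (Nat.mul_le_mul_right _ ?_) (h r')
    have e2 : {a ∈ A | a - r' ∈ I} = ↑(F.filter (fun a => a - r' ∈ I)) := by
      ext a
      simp [hF]
    rw [e2, Set.ncard_coe_finset]
    refine Finset.card_le_card fun a ha => ?_
    rw [Finset.mem_filter, Finset.mem_filter] at ha
    rw [Finset.mem_filter]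
    exact ⟨ha.1.1, Ideal.Quotient.eq.1 ha.2⟩
  have hpos : 0 < Nat.card (R ⧸ I) := Nat.card_pos
  have h3 : Nat.card (R ⧸ I) * ({a ∈ A | a - r ∈ J}.ncard * Nat.card (R ⧸ J)) ≤
      Nat.card (R ⧸ I) * M := by
    calc Nat.card (R ⧸ I) * ({a ∈ A | a - r ∈ J}.ncard * Nat.card (R ⧸ J))
        = ({a ∈ A | a - r ∈ J}.ncard * Nat.card (R ⧸ I)) * Nat.card (R ⧸ J) := by ring
      _ ≤ (S.card * M) * Nat.card (R ⧸ J) := Nat.mul_le_mul_right _ hN
      _ = (S.card * Nat.card (R ⧸ J)) * M := by ring
      _ = _ := by rw [hS]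
  exact Nat.le_of_mul_le_mul_left h3 hpos

end Pool.PRK
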